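import Mathlib

set_option autoImplicit false

namespace Pool.Agent.Results.MP_7acd66_nt.OddBeyondH15

/-- One step of the process: the divisor `d` is subtracted from the remainder `r` when `d ≤ r`. -/
def step (r d : ℕ) : ℕ := if d ≤ r then r - d else r

/-- The perfect deficiency of `n`: starting from `r = n`, run through all divisors of `n` in
increasing order and subtract each one from the current remainder when it is not larger than it. -/
def pd (n : ℕ) : ℕ := (n.divisors.sort (· ≤ ·)).foldl step n

theorem foldl_step (l : List ℕ) : ∀ r : ℕ, l.sum ≤ r → l.foldl step r = r - l.sum := by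
  induction l with
  | nil => intro r _; simp
  | cons d l ih =>
    intro r hr
    rw [List.sum_cons] at hr
    have h1 : d ≤ r := by omega
    rw [List.foldl_cons, step, if_pos h1, ih (r - d) (by omega), List.sum_cons]
    omega

theorem sort_divisors (n : ℕ) (hn : n ≠ 0) :
    n.divisors.sort (· ≤ ·) = n.properDivisors.sort (· ≤ ·) ++ [n] := by
  have hp : (n.divisors.sort (· ≤ ·)).Perm (n.properDivisors.sort (· ≤ ·) ++ [n]) := by
    rw [← Multiset.coe_eq_coe, ← Multiset.coe_add, Finset.sort_eq, Finset.sort_eq,
      ← Nat.insert_self_properDivisors hn, Finset.insert_val_of_notMem Nat.self_notMem_properDivisors,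
      Multiset.coe_singleton, add_comm, Multiset.singleton_add]
  refine hp.eq_of_pairwise' (r := (· ≤ ·)) (Finset.pairwise_sort _ _) ?_
  rw [List.pairwise_append]
  refine ⟨Finset.pairwise_sort _ _, by simp, ?_⟩
  intro a ha b hb
  rw [Finset.mem_sort, Nat.mem_properDivisors] at ha
  rw [List.mem_singleton] at hb
  rw [hb]
  exact ha.2.le

/-- If the proper divisors of `n > 1` have sum at most `n`, then the perfect deficiency of `n` is
`n` minus this sum. -/
theorem pd_eq (n : ℕ) (hn : 1 < n) (h : ∑ d ∈ n.properDivisors, d ≤ n) :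
    pd n = n - ∑ d ∈ n.properDivisors, d := by
  have hs : (n.properDivisors.sort (· ≤ ·)).sum = ∑ d ∈ n.properDivisors, d := by
    rw [← Multiset.sum_coe, Finset.sort_eq, Finset.sum_eq_multiset_sum, Multiset.map_id']
  have hpos : 0 < ∑ d ∈ n.properDivisors, d := by
    have : 1 ∈ n.properDivisors := by
      rw [Nat.mem_properDivisors]
      exact ⟨one_dvd _, hn⟩
    exact Finset.sum_pos' (fun _ _ => Nat.zero_le _) ⟨1, this, Nat.one_pos⟩
  have h1 : (n.properDivisors.sort (· ≤ ·)).foldl step n = n - ∑ d ∈ n.properDivisors, d := by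
    rw [foldl_step _ _ (by rw [hs]; exact h), hs]
  rw [pd, sort_divisors n (by omega), List.foldl_append, h1]
  simp only [List.foldl_cons, List.foldl_nil, step]
  rw [if_neg (by omega)]

theorem sum_divisors_num : ∑ d ∈ (815634435 : ℕ).divisors, d = 1631268864 := by
  have hp : ∀ p : ℕ, p.Prime → ∑ d ∈ p.divisors, d = p + 1 := by
    intro p hp
    rw [hp.sum_divisors, add_comm]
  have e : (815634435 : ℕ) = 3 * 5 * 7 * 11 * 547 * 1291 := by norm_num
  rw [e, Nat.Coprime.sum_divisors_mul (by norm_num), Nat.Coprime.sum_divisors_mul (by norm_num),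
    Nat.Coprime.sum_divisors_mul (by norm_num), Nat.Coprime.sum_divisors_mul (by norm_num),
    Nat.Coprime.sum_divisors_mul (by norm_num), hp 3 (by norm_num), hp 5 (by norm_num),
    hp 7 (by norm_num), hp 11 (by norm_num), hp 547 (by norm_num), hp 1291 (by norm_num)]

theorem pd_num : pd 815634435 = 6 := by
  have h1 := sum_divisors_num
  rw [Nat.sum_divisors_eq_sum_properDivisors_add_self] at h1
  have h2 : ∑ d ∈ (815634435 : ℕ).properDivisors, d = 815634429 := Nat.add_right_cancel (h1.trans (by norm_num : (1631268864 : ℕ) = 815634429 + 815634435))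
  rw [pd_eq _ (by norm_num) (by rw [h2]; norm_num), h2]

/-- There is an odd integer `n > 1155` with `pd n ≤ 10`. -/
theorem result : ∃ n : ℕ, 1155 < n ∧ Odd n ∧ pd n ≤ 10 :=
  ⟨815634435, by norm_num, ⟨407817217, by norm_num⟩, le_trans (le_of_eq pd_num) (by norm_num)⟩

end Pool.Agent.Results.MP_7acd66_nt.OddBeyondH15
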